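import Mathlib
import Pool.Agent.TH784.RothSpace

/-!
ZFC proves that some space is Rothberger but not ω-Rothberger (the negated form of Q1).

Let `T` be the tree of the functions `t : α → ω`, `0 < α < ω₁`, which are equal mod finite to
the `α`-th member of a coherent sequence of finite-to-one functions (an Aronszajn tree). For
`c < ht(t)` let `W⁺(t, c)` be the set of the nodes `y` which agree with `t` up to and including `c`
and which are either initial segments of `t` or split from `t` to the right; `W⁻(t, c)` is defined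
with left in place of right. These sets are clopen bases of two topologies on `T`. Both
are Rothberger: if `t_δ` is a node of height `δ` not covered by the neighbourhoods of the lower
nodes, then after pressing down one gets an uncountable set of nodes which is decreasing in the
lexicographic order, hence an uncountable branch; so there is `δ` such that the neighbourhoods of
the nodes of height `< δ` cover everything, whether a higher node is covered only depends on
its restriction to `δ`, and there are only countably many nodes of height at most `δ`. On the other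
hand `W⁺(t, c) ∩ W⁻(t, c)` is a set of initial segments of `t`, hence countable, so the disjoint
union of the two spaces is not ω-Rothberger, and its square is not even Lindelöf.
-/

set_option autoImplicit false

namespace Pool.Agent.Results.MP_f9bcb0_lc.RothbergerNotOmega

open Set Cardinal

/-- An open cover of `X`. -/
def IsOpenCover {X : Type} [TopologicalSpace X] (𝒰 : Set (Set X)) : Prop :=
  (∀ U ∈ 𝒰, IsOpen U) ∧ ⋃₀ 𝒰 = Set.univ

/-- An ω-cover of `X`: an open cover which does not contain `X` and such that every finite subset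
of `X` is contained in some member. -/
def IsOmegaCover {X : Type} [TopologicalSpace X] (𝒰 : Set (Set X)) : Prop :=
  IsOpenCover 𝒰 ∧ Set.univ ∉ 𝒰 ∧ ∀ F : Set X, F.Finite → ∃ U ∈ 𝒰, F ⊆ U

/-- The Rothberger property `S₁(O, O)`. -/
def Rothberger (X : Type) [TopologicalSpace X] : Prop :=
  ∀ 𝒰 : ℕ → Set (Set X), (∀ n, IsOpenCover (𝒰 n)) →
    ∃ U : ℕ → Set X, (∀ n, U n ∈ 𝒰 n) ∧ IsOpenCover (Set.range U)

/-- The ω-Rothberger property `S₁(Ω, Ω)`. -/
def OmegaRothberger (X : Type) [TopologicalSpace X] : Prop :=
  ∀ 𝒰 : ℕ → Set (Set X), (∀ n, IsOmegaCover (𝒰 n)) →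
    ∃ U : ℕ → Set X, (∀ n, U n ∈ 𝒰 n) ∧ IsOmegaCover (Set.range U)

open Pool.Agent.TH784.Roth in
/-- There is a Rothberger space which is not ω-Rothberger. Moreover it is Hausdorff with a base of
clopen sets, first countable, of cardinality `ℵ₁`, and its square is not Lindelöf. -/
theorem result : ∃ (X : Type) (_ : TopologicalSpace X), Rothberger X ∧ ¬ OmegaRothberger X ∧
    T2Space X ∧ (∀ (x : X) (U : Set X), IsOpen U → x ∈ U → ∃ V, IsClopen V ∧ x ∈ V ∧ V ⊆ U) ∧
    FirstCountableTopology X ∧ #X = ℵ₁ ∧ ¬ LindelofSpace (X × X) := by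
  classical
  let W : Type := (ℵ₁ : Cardinal.{0}).ord.ToType
  have hW : #W = ℵ₁ := by simp [W]
  have hc : ∀ a : W, (Set.Iio a).Countable := fun a => by
    rw [← Cardinal.le_aleph0_iff_set_countable]
    exact Cardinal.lt_aleph_one_iff.1 (Cardinal.mk_Iio_ord_toType a)
  have hu : ¬ (Set.univ : Set W).Countable := by
    rw [← Cardinal.le_aleph0_iff_set_countable, Cardinal.mk_univ, hW, not_le]
    exact Cardinal.aleph0_lt_aleph_one
  obtain ⟨e, he1, he⟩ := Helper996.Dowker.exists_coherent hc
  refine ⟨Dbl e, topDbl, ?_, ?_, t2, clopen_base, firstCountable hc, card_nodes hc hu hW he,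
    square hc hu⟩
  · intro 𝒰 h𝒰
    obtain ⟨U, hU, hU'⟩ := rothberger hc hu he1 he 𝒰 h𝒰
    refine ⟨U, hU, ?_, ?_⟩
    · rintro _ ⟨n, rfl⟩
      exact (h𝒰 n).1 _ (hU n)
    · rw [Set.sUnion_range]
      exact hU'
  · intro h
    let 𝒲 : Set (Set (Dbl e)) := {U | IsOpen U ∧ (Dg U).Countable}
    have h𝒲 : IsOmegaCover 𝒲 := by
      refine ⟨⟨fun U hU => hU.1, ?_⟩, ?_, fun F hF => ?_⟩
      · ext z
        simp only [Set.mem_sUnion, Set.mem_univ, iff_true]
        obtain ⟨U, hU, hU', hz⟩ := omega_cover hc {z} (Set.finite_singleton z)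
        exact ⟨U, ⟨hU, hU'⟩, hz rfl⟩
      · rintro ⟨_, h1⟩
        apply uncountable_nodes (e := e) hu
        refine h1.mono ?_
        intro x _ b
        trivial
      · obtain ⟨U, hU, hU', hF'⟩ := omega_cover hc F hF
        exact ⟨U, ⟨hU, hU'⟩, hF'⟩
    obtain ⟨U, hU, hU'⟩ := h (fun _ => 𝒲) (fun _ => h𝒲)
    apply uncountable_nodes (e := e) hu
    refine (Set.countable_iUnion (fun n => (hU n).2)).mono ?_
    intro x _
    obtain ⟨V, ⟨n, rfl⟩, hV⟩ := hU'.2.2 {((x, true) : Dbl e), ((x, false) : Dbl e)}
      ((Set.finite_singleton _).insert _)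
    refine Set.mem_iUnion.2 ⟨n, fun b => ?_⟩
    cases b
    · exact hV (Or.inr rfl)
    · exact hV (Or.inl rfl)

end Pool.Agent.Results.MP_f9bcb0_lc.RothbergerNotOmega
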